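import Mathlib

set_option autoImplicit false
set_option linter.unusedSectionVars false

namespace Pool.Agent.Results.MP_47a88a_co.ConvexTwoSpannerLowerBound

/-- The intersection graph of a family of subsets of `ℝ³`: distinct indices are adjacent iff the
corresponding sets meet. -/
def intersectionGraph {ι : Type} (A : ι → Set (EuclideanSpace ℝ (Fin 3))) : SimpleGraph ι where
  Adj i j := i ≠ j ∧ (A i ∩ A j).Nonempty
  symm := ⟨fun i j h => ⟨h.1.symm, by rw [Set.inter_comm]; exact h.2⟩⟩
  loopless := ⟨fun i h => h.1 rfl⟩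

/-- `G'` is a `t`-spanner of `G`: a spanning subgraph in which every distance is at most `t` times
the distance in `G` (distances are extended natural numbers, `⊤` when there is no path). -/
def IsSpanner {ι : Type} (t : ℕ) (G G' : SimpleGraph ι) : Prop :=
  G' ≤ G ∧ ∀ x y : ι, G'.edist x y ≤ t * G.edist x y

/-- The closed axis-aligned cube of side length `l` with lowest corner `a`. -/
def cube (a : EuclideanSpace ℝ (Fin 3)) (l : ℝ) : Set (EuclideanSpace ℝ (Fin 3)) := {x | ∀ k : Fin 3, a k ≤ x k ∧ x k ≤ a k + l}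

/-- The family `A` is `c`-fat: for every axis-aligned cube of side length `l > 0`, some set of at
most `c` points meets every member of the family that intersects the cube and has diameter at
least `l`. -/
def IsFat {ι : Type} (c : ℕ) (A : ι → Set (EuclideanSpace ℝ (Fin 3))) : Prop :=
  ∀ (a : EuclideanSpace ℝ (Fin 3)) (l : ℝ), 0 < l → ∃ S : Finset (EuclideanSpace ℝ (Fin 3)), S.card ≤ c ∧
    ∀ i : ι, (A i ∩ cube a l).Nonempty → l ≤ Metric.diam (A i) → (A i ∩ (S : Set (EuclideanSpace ℝ (Fin 3)))).Nonempty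

/-! ### Graph part -/

theorem adj_or_path {V : Type} {G' : SimpleGraph V} {x y : V} (hxy : x ≠ y)
    (h : G'.edist x y ≤ 2) : G'.Adj x y ∨ ∃ z, G'.Adj x z ∧ G'.Adj z y := by
  by_contra hcon
  push Not at hcon
  have h2 : 2 < G'.edist x y := by
    rw [SimpleGraph.two_lt_edist_iff]
    refine ⟨hxy, hcon.1, ?_⟩
    rw [Set.eq_empty_iff_forall_notMem]
    intro z hz
    rw [SimpleGraph.mem_commonNeighbors] at hz
    exact hcon.2 z hz.1 hz.2.symm
  exact absurd h (not_le.2 h2)

theorem card_fiber_le {V : Type} [DecidableEq V] (F : Finset (V × V)) (u v : V)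
    (h1 : ∀ t ∈ F, t.1 = u ∨ t.1 = v) (h2 : ∀ t ∈ F, ∀ t' ∈ F, t.2 = t'.2) : F.card ≤ 2 := by
  have : F.card ≤ ({u, v} : Finset V).card := by
    apply Finset.card_le_card_of_injOn (fun t => t.1)
    · intro t ht
      have := h1 t ht
      simpa using this
    · intro t ht t' ht' htt
      exact Prod.ext htt (h2 t ht t' ht')
  exact this.trans Finset.card_le_two

theorem card_fiber_le' {V : Type} [DecidableEq V] (F : Finset (V × V)) (u v : V)
    (h1 : ∀ t ∈ F, t.2 = u ∨ t.2 = v) (h2 : ∀ t ∈ F, ∀ t' ∈ F, t.1 = t'.1) : F.card ≤ 2 := by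
  have : F.card ≤ ({u, v} : Finset V).card := by
    apply Finset.card_le_card_of_injOn (fun t => t.2)
    · intro t ht
      have := h1 t ht
      simpa using this
    · intro t ht t' ht' htt
      exact Prod.ext (h2 t ht t' ht') htt
  exact this.trans Finset.card_le_two

/-- If the edges between the two colour classes contain no 4-cycle, then every subgraph in which
adjacent vertices of `G` are at distance at most 2 has at least half as many edges as there are
edges between the colour classes. -/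
theorem spanner_bound {V : Type} [Fintype V] [DecidableEq V] (G G' : SimpleGraph V)
    (col : V → Bool) (T : Finset (V × V))
    (hT : ∀ t ∈ T, G.Adj t.1 t.2 ∧ col t.1 = true ∧ col t.2 = false)
    (hC : ∀ x x' y y' : V, col x = true → col x' = true → col y = false → col y' = false →
      x ≠ x' → G.Adj x y → G.Adj x y' → G.Adj x' y → G.Adj x' y' → y = y')
    (hle : G' ≤ G) (hs : ∀ x y, G.Adj x y → G'.edist x y ≤ 2) :
    T.card ≤ 2 * G'.edgeSet.ncard := by
  classical
  have key : ∀ t : V × V, ∃ e : Sym2 V, t ∈ T → (e ∈ G'.edgeSet ∧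
      ((e = s(t.1, t.2)) ∨ (∃ z, col z = true ∧ z ≠ t.1 ∧ e = s(t.1, z) ∧ G.Adj z t.2) ∨
        (∃ z, col z = false ∧ z ≠ t.2 ∧ e = s(t.2, z) ∧ G.Adj t.1 z))) := by
    intro t
    by_cases ht : t ∈ T
    · obtain ⟨hadj, hc1, hc2⟩ := hT t ht
      rcases adj_or_path hadj.ne (hs _ _ hadj) with h | ⟨z, hz1, hz2⟩
      · exact ⟨s(t.1, t.2), fun _ => ⟨by simpa using h, Or.inl rfl⟩⟩
      · cases hcz : col z
        · refine ⟨s(t.2, z), fun _ => ⟨?_, Or.inr (Or.inr ⟨z, hcz, hz2.ne, rfl, hle hz1⟩)⟩⟩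
          rw [SimpleGraph.mem_edgeSet]
          exact hz2.symm
        · refine ⟨s(t.1, z), fun _ => ⟨?_, Or.inr (Or.inl ⟨z, hcz, hz1.ne', rfl, hle hz2⟩)⟩⟩
          rw [SimpleGraph.mem_edgeSet]
          exact hz1
    · exact ⟨s(t.1, t.2), fun h => absurd h ht⟩
  choose f hf using key
  have hfin : G'.edgeSet.Finite := Set.toFinite _
  have hcard : hfin.toFinset.card = G'.edgeSet.ncard :=
    (Set.ncard_eq_toFinset_card G'.edgeSet hfin).symm
  rw [← hcard]
  apply Finset.card_le_mul_card_image_of_maps_to (f := f)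
  · intro t ht
    exact hfin.mem_toFinset.2 (hf t ht).1
  · intro e he
    induction e using Sym2.ind with
    | _ u v =>
    have huv : G'.Adj u v := (SimpleGraph.mem_edgeSet G').1 (hfin.mem_toFinset.1 he)
    have hne : u ≠ v := huv.ne
    -- description of the fibre
    have hfib : ∀ t ∈ T.filter (fun t => f t = s(u, v)), t ∈ T ∧ f t = s(u, v) := by
      intro t ht
      simpa using ht
    cases hcu : col u <;> cases hcv : col v
    · -- both false
      apply card_fiber_le' _ u v
      · intro t ht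
        obtain ⟨htT, hft⟩ := hfib t ht
        obtain ⟨-, h | ⟨z, hz, -, h, -⟩ | ⟨z, hz, -, h, -⟩⟩ := hf t htT
        · rw [hft, Sym2.eq_iff] at h
          rcases h with ⟨-, h⟩ | ⟨h, -⟩
          · exact Or.inr h.symm
          · exact Or.inl h.symm
        · rw [hft, Sym2.eq_iff] at h
          rcases h with ⟨h, -⟩ | ⟨-, h⟩
          · rw [h, (hT t htT).2.1] at hcu; cases hcu
          · rw [h, (hT t htT).2.1] at hcv; cases hcv
        · rw [hft, Sym2.eq_iff] at h
          rcases h with ⟨h, -⟩ | ⟨-, h⟩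
          · exact Or.inl h.symm
          · exact Or.inr h.symm
      · intro t ht t' ht'
        have aux : ∀ t ∈ T.filter (fun t => f t = s(u, v)), G.Adj t.1 u ∧ G.Adj t.1 v := by
          intro t ht
          obtain ⟨htT, hft⟩ := hfib t ht
          obtain ⟨hadj, hc1, hc2⟩ := hT t htT
          obtain ⟨-, h | ⟨z, hz, -, h, -⟩ | ⟨z, hz, -, h, hz3⟩⟩ := hf t htT
          · rw [hft, Sym2.eq_iff] at h
            rcases h with ⟨h, -⟩ | ⟨-, h⟩
            · rw [h, hc1] at hcu; cases hcu
            · rw [h, hc1] at hcv; cases hcv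
          · rw [hft, Sym2.eq_iff] at h
            rcases h with ⟨h, -⟩ | ⟨-, h⟩
            · rw [h, hc1] at hcu; cases hcu
            · rw [h, hc1] at hcv; cases hcv
          · rw [hft, Sym2.eq_iff] at h
            rcases h with ⟨h, h'⟩ | ⟨h, h'⟩
            · rw [h, h']; exact ⟨hadj, hz3⟩
            · rw [h, h']; exact ⟨hz3, hadj⟩
        by_contra hne'
        obtain ⟨a1, a2⟩ := aux t ht
        obtain ⟨b1, b2⟩ := aux t' ht'
        exact hne (hC t.1 t'.1 u v (hT t (hfib t ht).1).2.1 (hT t' (hfib t' ht').1).2.1 hcu hcv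
          hne' a1 a2 b1 b2)
    · -- u false, v true
      apply card_fiber_le _ u v
      · intro t ht
        obtain ⟨htT, hft⟩ := hfib t ht
        obtain ⟨hadj, hc1, hc2⟩ := hT t htT
        obtain ⟨-, h | ⟨z, hz, -, h, -⟩ | ⟨z, hz, -, h, -⟩⟩ := hf t htT
        · rw [hft, Sym2.eq_iff] at h
          rcases h with ⟨h, -⟩ | ⟨-, h⟩
          · exact Or.inl h.symm
          · exact Or.inr h.symm
        · rw [hft, Sym2.eq_iff] at h
          rcases h with ⟨h, -⟩ | ⟨-, h⟩
          · exact Or.inl h.symm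
          · exact Or.inr h.symm
        · rw [hft, Sym2.eq_iff] at h
          rcases h with ⟨h, h'⟩ | ⟨h, h'⟩
          · rw [h', hz] at hcv; cases hcv
          · rw [h', hc2] at hcv; cases hcv
      · have aux : ∀ t ∈ T.filter (fun t => f t = s(u, v)), t.2 = u := by
          intro t ht
          obtain ⟨htT, hft⟩ := hfib t ht
          obtain ⟨hadj, hc1, hc2⟩ := hT t htT
          obtain ⟨-, h | ⟨z, hz, -, h, -⟩ | ⟨z, hz, -, h, -⟩⟩ := hf t htT
          · rw [hft, Sym2.eq_iff] at h
            rcases h with ⟨h, h'⟩ | ⟨h, h'⟩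
            · rw [h, hc1] at hcu; cases hcu
            · exact h.symm
          · rw [hft, Sym2.eq_iff] at h
            rcases h with ⟨h, h'⟩ | ⟨h, h'⟩
            · rw [h, hc1] at hcu; cases hcu
            · rw [h, hz] at hcu; cases hcu
          · rw [hft, Sym2.eq_iff] at h
            rcases h with ⟨h, h'⟩ | ⟨h, h'⟩
            · rw [h', hz] at hcv; cases hcv
            · rw [h', hc2] at hcv; cases hcv
        intro t ht t' ht'
        rw [aux t ht, aux t' ht']
    · -- u true, v false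
      apply card_fiber_le _ u v
      · intro t ht
        obtain ⟨htT, hft⟩ := hfib t ht
        obtain ⟨hadj, hc1, hc2⟩ := hT t htT
        obtain ⟨-, h | ⟨z, hz, -, h, -⟩ | ⟨z, hz, -, h, -⟩⟩ := hf t htT
        · rw [hft, Sym2.eq_iff] at h
          rcases h with ⟨h, -⟩ | ⟨-, h⟩
          · exact Or.inl h.symm
          · exact Or.inr h.symm
        · rw [hft, Sym2.eq_iff] at h
          rcases h with ⟨h, -⟩ | ⟨-, h⟩
          · exact Or.inl h.symm
          · exact Or.inr h.symm
        · rw [hft, Sym2.eq_iff] at h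
          rcases h with ⟨h, h'⟩ | ⟨h, h'⟩
          · rw [h, hc2] at hcu; cases hcu
          · rw [h, hz] at hcu; cases hcu
      · have aux : ∀ t ∈ T.filter (fun t => f t = s(u, v)), t.2 = v := by
          intro t ht
          obtain ⟨htT, hft⟩ := hfib t ht
          obtain ⟨hadj, hc1, hc2⟩ := hT t htT
          obtain ⟨-, h | ⟨z, hz, -, h, -⟩ | ⟨z, hz, -, h, -⟩⟩ := hf t htT
          · rw [hft, Sym2.eq_iff] at h
            rcases h with ⟨h, h'⟩ | ⟨h, h'⟩
            · exact h'.symm
            · rw [h', hc1] at hcv; cases hcv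
          · rw [hft, Sym2.eq_iff] at h
            rcases h with ⟨h, h'⟩ | ⟨h, h'⟩
            · rw [h', hz] at hcv; cases hcv
            · rw [h', hc1] at hcv; cases hcv
          · rw [hft, Sym2.eq_iff] at h
            rcases h with ⟨h, h'⟩ | ⟨h, h'⟩
            · rw [h, hc2] at hcu; cases hcu
            · rw [h, hz] at hcu; cases hcu
        intro t ht t' ht'
        rw [aux t ht, aux t' ht']
    · -- both true
      apply card_fiber_le _ u v
      · intro t ht
        obtain ⟨htT, hft⟩ := hfib t ht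
        obtain ⟨hadj, hc1, hc2⟩ := hT t htT
        obtain ⟨-, h | ⟨z, hz, -, h, -⟩ | ⟨z, hz, -, h, -⟩⟩ := hf t htT
        · rw [hft, Sym2.eq_iff] at h
          rcases h with ⟨h, -⟩ | ⟨-, h⟩
          · exact Or.inl h.symm
          · exact Or.inr h.symm
        · rw [hft, Sym2.eq_iff] at h
          rcases h with ⟨h, -⟩ | ⟨-, h⟩
          · exact Or.inl h.symm
          · exact Or.inr h.symm
        · rw [hft, Sym2.eq_iff] at h
          rcases h with ⟨h, h'⟩ | ⟨h, h'⟩
          · rw [h, hc2] at hcu; cases hcu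
          · rw [h, hz] at hcu; cases hcu
      · intro t ht t' ht'
        have aux : ∀ t ∈ T.filter (fun t => f t = s(u, v)), G.Adj u t.2 ∧ G.Adj v t.2 := by
          intro t ht
          obtain ⟨htT, hft⟩ := hfib t ht
          obtain ⟨hadj, hc1, hc2⟩ := hT t htT
          obtain ⟨-, h | ⟨z, hz, -, h, hz3⟩ | ⟨z, hz, -, h, -⟩⟩ := hf t htT
          · rw [hft, Sym2.eq_iff] at h
            rcases h with ⟨-, h⟩ | ⟨h, -⟩
            · rw [h, hc2] at hcv; cases hcv
            · rw [h, hc2] at hcu; cases hcu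
          · rw [hft, Sym2.eq_iff] at h
            rcases h with ⟨h, h'⟩ | ⟨h, h'⟩
            · rw [h, h']; exact ⟨hadj, hz3⟩
            · rw [h, h']; exact ⟨hz3, hadj⟩
          · rw [hft, Sym2.eq_iff] at h
            rcases h with ⟨h, h'⟩ | ⟨h, h'⟩
            · rw [h, hc2] at hcu; cases hcu
            · rw [h, hz] at hcu; cases hcu
        obtain ⟨a1, a2⟩ := aux t ht
        obtain ⟨b1, b2⟩ := aux t' ht'
        exact hC u v t.2 t'.2 hcu hcv (hT t (hfib t ht).1).2.2 (hT t' (hfib t' ht').1).2.2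
          hne a1 b1 a2 b2

/-! ### Geometric part -/

/-- The vertices of the cube `[-1,1]² × [h-1,h+1]`. -/
def vert (h : ℝ) (s : Bool × Bool × Bool) : EuclideanSpace ℝ (Fin 3) :=
  !₂[if s.1 then 1 else -1, if s.2.1 then 1 else -1, if s.2.2 then h + 1 else h - 1]

/-- Point of a parabola in the plane `z = 0`. -/
def w (t : ℝ) : EuclideanSpace ℝ (Fin 3) := !₂[t, t ^ 2, 0]

/-- The finite set whose convex hull is the object. -/
noncomputable def gens (h : ℝ) (S : Finset ℝ) : Finset (EuclideanSpace ℝ (Fin 3)) := by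
  classical
  exact Finset.univ.image (vert h) ∪ S.image w

noncomputable def obj (h : ℝ) (S : Finset ℝ) : Set (EuclideanSpace ℝ (Fin 3)) := convexHull ℝ (gens h S : Set (EuclideanSpace ℝ (Fin 3)))

theorem mem_gens {h : ℝ} {S : Finset ℝ} {x : EuclideanSpace ℝ (Fin 3)} :
    x ∈ gens h S ↔ (∃ s, vert h s = x) ∨ (∃ t ∈ S, w t = x) := by
  classical
  simp only [gens, Finset.mem_union, Finset.mem_image, Finset.mem_univ, true_and]

theorem vert_mem (h : ℝ) (S : Finset ℝ) (s : Bool × Bool × Bool) : vert h s ∈ obj h S :=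
  subset_convexHull ℝ _ (Finset.mem_coe.2 (mem_gens.2 (Or.inl ⟨s, rfl⟩)))

theorem w_mem (h : ℝ) (S : Finset ℝ) {t : ℝ} (ht : t ∈ S) : w t ∈ obj h S :=
  subset_convexHull ℝ _ (Finset.mem_coe.2 (mem_gens.2 (Or.inr ⟨t, ht, rfl⟩)))

theorem obj_subset {h : ℝ} {S : Finset ℝ} {C : Set (EuclideanSpace ℝ (Fin 3))} (hC : Convex ℝ C)
    (h1 : ∀ s, vert h s ∈ C) (h2 : ∀ t ∈ S, w t ∈ C) : obj h S ⊆ C := by
  apply convexHull_min _ hC
  intro x hx
  rcases mem_gens.1 (Finset.mem_coe.1 hx) with ⟨s, rfl⟩ | ⟨t, ht, rfl⟩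
  · exact h1 s
  · exact h2 t ht

theorem box_subset {C : Set (EuclideanSpace ℝ (Fin 3))} (hC : Convex ℝ C) (h : ℝ) (h1 : ∀ s, vert h s ∈ C) (x : EuclideanSpace ℝ (Fin 3))
    (h0 : |x 0| ≤ 1) (h01 : |x 1| ≤ 1) (h02 : |x 2 - h| ≤ 1) : x ∈ C := by
  rw [abs_le] at h0 h01 h02
  have step1 : ∀ b c : Bool, (!₂[x 0, if b then 1 else -1, if c then h + 1 else h - 1] : EuclideanSpace ℝ (Fin 3)) ∈ C := by
    intro b c
    have := hC (h1 (true, b, c)) (h1 (false, b, c)) (a := (1 + x 0) / 2) (b := (1 - x 0) / 2)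
      (by linarith) (by linarith) (by ring)
    convert this using 1
    ext i
    cases b <;> cases c <;> fin_cases i <;> simp [vert] <;> ring
  have step2 : ∀ c : Bool, (!₂[x 0, x 1, if c then h + 1 else h - 1] : EuclideanSpace ℝ (Fin 3)) ∈ C := by
    intro c
    have := hC (step1 true c) (step1 false c) (a := (1 + x 1) / 2) (b := (1 - x 1) / 2)
      (by linarith) (by linarith) (by ring)
    convert this using 1
    ext i
    cases c <;> fin_cases i <;> simp <;> ring
  have := hC (step2 true) (step2 false) (a := (1 + (x 2 - h)) / 2) (b := (1 - (x 2 - h)) / 2)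
      (by linarith) (by linarith) (by ring)
  convert this using 1
  ext i
  fin_cases i <;> simp <;> ring

theorem ball_subset (h : ℝ) (S : Finset ℝ) :
    Metric.closedBall (!₂[0, 0, h] : EuclideanSpace ℝ (Fin 3)) 1 ⊆ obj h S := by
  intro x hx
  rw [mem_closedBall_iff_norm] at hx
  have hk : ∀ k : Fin 3, |(x - !₂[0, 0, h]) k| ≤ 1 := fun k => by
    have := PiLp.norm_apply_le (x - !₂[0, 0, h]) k
    rw [Real.norm_eq_abs] at this
    exact this.trans hx
  have k0 := hk 0
  have k1 := hk 1
  have k2 := hk 2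
  simp at k0 k1 k2
  exact box_subset (convex_convexHull ℝ _) h (vert_mem h S) x k0 k1 k2

theorem subset_ball {h : ℝ} (hh : |h| ≤ 2) (S : Finset ℝ) (hS : ∀ t ∈ S, 0 ≤ t ∧ t ≤ 1) :
    obj h S ⊆ Metric.closedBall (0 : EuclideanSpace ℝ (Fin 3)) 4 := by
  rw [abs_le] at hh
  apply obj_subset (convex_closedBall _ _)
  · intro s
    rw [mem_closedBall_zero_iff, EuclideanSpace.norm_eq]
    apply Real.sqrt_le_iff.2
    refine ⟨by norm_num, ?_⟩
    rw [Fin.sum_univ_three]
    rcases s with ⟨a, b, c⟩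
    cases a <;> cases b <;> cases c <;> simp [vert] <;> nlinarith
  · intro t ht
    obtain ⟨h0, h1⟩ := hS t ht
    rw [mem_closedBall_zero_iff, EuclideanSpace.norm_eq]
    apply Real.sqrt_le_iff.2
    refine ⟨by norm_num, ?_⟩
    rw [Fin.sum_univ_three]
    simp [w]
    have : t ^ 2 ≤ 1 := by nlinarith
    nlinarith [sq_nonneg t, sq_nonneg (t^2)]

/-- An upper object and the lower object spanned by one point of the parabola meet iff the point
is among the generators of the upper object. -/
theorem not_meet {S : Finset ℝ} {t : ℝ} (ht : 0 ≤ t ∧ t ≤ 1)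
    (htS : t ∉ S) {x : EuclideanSpace ℝ (Fin 3)} (hx : x ∈ obj 2 S) (hx' : x ∈ obj (-2) {t}) : False := by
  -- the affine functional `f = (y - 2 t x + t²) + 10 z`
  have hconv1 : Convex ℝ {x : EuclideanSpace ℝ (Fin 3) | 0 < (x 1 - 2 * t * x 0 + t ^ 2) + 10 * x 2} := by
    intro x hx y hy a b ha hb hab
    simp only [Set.mem_ofPred_eq] at hx hy ⊢
    simp only [PiLp.add_apply, PiLp.smul_apply, smul_eq_mul]
    have hb' : b = 1 - a := by linarith
    subst hb'
    rcases eq_or_lt_of_le ha with h | h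
    · subst h; simpa using hy
    · have h1 := mul_pos h hx
      have h2 := mul_nonneg hb hy.le
      nlinarith
  have hconv2 : Convex ℝ {x : EuclideanSpace ℝ (Fin 3) | (x 1 - 2 * t * x 0 + t ^ 2) + 10 * x 2 ≤ 0} := by
    intro x hx y hy a b ha hb hab
    simp only [Set.mem_ofPred_eq] at hx hy ⊢
    simp only [PiLp.add_apply, PiLp.smul_apply, smul_eq_mul]
    have hb' : b = 1 - a := by linarith
    subst hb'
    have h1 := mul_nonneg ha (sub_nonneg.2 hx)
    have h2 := mul_nonneg hb (sub_nonneg.2 hy)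
    nlinarith
  have h1 : x ∈ {x : EuclideanSpace ℝ (Fin 3) | 0 < (x 1 - 2 * t * x 0 + t ^ 2) + 10 * x 2} := by
    refine obj_subset hconv1 ?_ ?_ hx
    · rintro ⟨a, b, c⟩
      cases a <;> cases b <;> cases c <;> simp [vert] <;> nlinarith
    · intro t' ht'
      have hne : t' ≠ t := fun h => htS (h ▸ ht')
      have : 0 < (t' - t) ^ 2 := by
        have := sub_ne_zero.2 hne
        positivity
      simp [w]
      nlinarith
  have h2 : x ∈ {x : EuclideanSpace ℝ (Fin 3) | (x 1 - 2 * t * x 0 + t ^ 2) + 10 * x 2 ≤ 0} := by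
    refine obj_subset hconv2 ?_ ?_ hx'
    · rintro ⟨a, b, c⟩
      cases a <;> cases b <;> cases c <;> simp [vert] <;> nlinarith
    · intro t' ht'
      rw [Finset.mem_singleton] at ht'
      subst ht'
      simp [w]
      nlinarith
  simp only [Set.mem_ofPred_eq] at h1 h2
  linarith

theorem obj_inter_same (h : ℝ) (S S' : Finset ℝ) : (obj h S ∩ obj h S').Nonempty :=
  ⟨vert h (true, true, true), vert_mem h S _, vert_mem h S' _⟩

/-! ### The family -/

/-- Labels: lines `(m, b)` of the affine plane over `F`, points `(u, v)`, and `k` extra labels. -/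
abbrev Lab (F : Type) (k : ℕ) := (F × F) ⊕ (F × F) ⊕ Fin k

section family

variable {F : Type} [Field F] [Fintype F] [DecidableEq F]

/-- parameter of a point of the affine plane -/
noncomputable def par (F : Type) [Fintype F] (z : F × F) : ℝ :=
  ((Fintype.equivFin (F × F) z : ℕ) : ℝ) / (Fintype.card (F × F) : ℝ)

theorem par_mem (z : F × F) : 0 ≤ par F z ∧ par F z ≤ 1 := by
  unfold par
  have hlt := (Fintype.equivFin (F × F) z).2
  constructor
  · positivity
  · apply div_le_one_of_le₀
    · exact_mod_cast hlt.le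
    · positivity

theorem par_inj {z z' : F × F} (h : par F z = par F z') : z = z' := by
  unfold par at h
  have hlt := (Fintype.equivFin (F × F) z).2
  have hpos : (0 : ℝ) < (Fintype.card (F × F) : ℝ) := by
    exact_mod_cast lt_of_le_of_lt (Nat.zero_le _) hlt
  have h' : ((Fintype.equivFin (F × F) z : ℕ) : ℝ) = ((Fintype.equivFin (F × F) z' : ℕ) : ℝ) := by
    field_simp at h
    exact h
  have h'' : (Fintype.equivFin (F × F) z : ℕ) = (Fintype.equivFin (F × F) z' : ℕ) := by
    exact_mod_cast h'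
  exact (Fintype.equivFin (F × F)).injective (Fin.ext h'')

/-- heights -/
def ht {F : Type} {k : ℕ} : Lab F k → ℝ
  | Sum.inl _ => 2
  | Sum.inr (Sum.inl _) => -2
  | Sum.inr (Sum.inr _) => 2

/-- sets of parameters -/
noncomputable def pts {k : ℕ} : Lab F k → Finset ℝ
  | Sum.inl l => Finset.univ.image (fun u : F => par F (u, l.1 * u + l.2))
  | Sum.inr (Sum.inl z) => {par F z}
  | Sum.inr (Sum.inr _) => ∅

noncomputable def fam {k : ℕ} (a : Lab F k) : Set (EuclideanSpace ℝ (Fin 3)) := obj (ht a) (pts a)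

theorem pts_mem {k : ℕ} (a : Lab F k) : ∀ t ∈ pts a, 0 ≤ t ∧ t ≤ 1 := by
  intro t ht
  rcases a with l | z | i
  · simp only [pts, Finset.mem_image, Finset.mem_univ, true_and] at ht
    obtain ⟨u, rfl⟩ := ht
    exact par_mem _
  · simp only [pts, Finset.mem_singleton] at ht
    subst ht
    exact par_mem _
  · simp [pts] at ht

theorem abs_ht {k : ℕ} (a : Lab F k) : |ht a| ≤ 2 := by
  rcases a with l | z | i <;> simp [ht]

def colr {k : ℕ} : Lab F k → Bool
  | Sum.inl _ => true
  | Sum.inr (Sum.inl _) => false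
  | Sum.inr (Sum.inr _) => true

/-- upper and lower objects meet only for incident pairs -/
theorem meet_cross {k : ℕ} {a b : Lab F k} (ha : colr a = true) (hb : colr b = false)
    (h : (fam a ∩ fam b).Nonempty) :
    ∃ (l z : F × F), a = Sum.inl l ∧ b = Sum.inr (Sum.inl z) ∧ z.2 = l.1 * z.1 + l.2 := by
  obtain ⟨x, hx1, hx2⟩ := h
  rcases b with l' | z | i'
  · cases hb
  · rcases a with l | z' | i
    · refine ⟨l, z, rfl, rfl, ?_⟩
      by_contra hne
      refine not_meet (S := pts (Sum.inl l : Lab F k)) (par_mem z) ?_ hx1 hx2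
      simp only [pts, Finset.mem_image, Finset.mem_univ, true_and, not_exists]
      intro u hu
      have := par_inj hu
      apply hne
      rw [← this]
    · cases ha
    · exfalso
      refine not_meet (S := pts (Sum.inr (Sum.inr i) : Lab F k)) (par_mem z) ?_ hx1 hx2
      simp [pts]
  · cases hb

theorem meet_inc {k : ℕ} (l z : F × F) (h : z.2 = l.1 * z.1 + l.2) :
    ((fam (Sum.inl l : Lab F k)) ∩ fam (Sum.inr (Sum.inl z) : Lab F k)).Nonempty := by
  refine ⟨w (par F z), w_mem _ _ ?_, w_mem _ _ ?_⟩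
  · simp only [pts, Finset.mem_image, Finset.mem_univ, true_and]
    exact ⟨z.1, by rw [← h]⟩
  · simp [pts]

end family

/-- The bound for the family indexed by any type in bijection with the labels. -/
theorem family_bound {F : Type} [Field F] [Fintype F] [DecidableEq F] {k n : ℕ}
    (e : Fin n ≃ Lab F k) (G' : SimpleGraph (Fin n))
    (hG' : IsSpanner 2 (intersectionGraph (fun i => fam (e i))) G') :
    (Fintype.card F) ^ 3 ≤ 2 * G'.edgeSet.ncard := by
  classical
  set G := intersectionGraph (fun i => fam (e i)) with hG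
  let g : F × F × F → Fin n × Fin n := fun t =>
    (e.symm (Sum.inl (t.1, t.2.1)), e.symm (Sum.inr (Sum.inl (t.2.2, t.1 * t.2.2 + t.2.1))))
  have hg : Function.Injective g := by
    rintro ⟨m, b, u⟩ ⟨m', b', u'⟩ h
    simp only [g, Prod.mk.injEq, EmbeddingLike.apply_eq_iff_eq, Sum.inl.injEq, Sum.inr.injEq] at h
    obtain ⟨⟨h1, h2⟩, h3, -⟩ := h
    subst h1; subst h2; subst h3
    rfl
  have hcard : (Finset.univ.image g).card = (Fintype.card F) ^ 3 := by
    rw [Finset.card_image_of_injective _ hg, Finset.card_univ, Fintype.card_prod,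
      Fintype.card_prod]
    ring
  rw [← hcard]
  apply spanner_bound G G' (fun i => colr (e i)) (Finset.univ.image g)
  · intro t ht
    simp only [Finset.mem_image, Finset.mem_univ, true_and] at ht
    obtain ⟨⟨m, b, u⟩, rfl⟩ := ht
    refine ⟨⟨?_, ?_⟩, ?_, ?_⟩
    · intro h
      have h' := e.symm.injective h
      cases h'
    · simp only [g, Equiv.apply_symm_apply]
      exact meet_inc _ _ rfl
    · simp [g, colr]
    · simp [g, colr]
  · intro x x' y y' hx hx' hy hy' hne hxy hxy' hx'y hx'y'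
    obtain ⟨l, z, h1, h2, h3⟩ := meet_cross hx hy hxy.2
    obtain ⟨l₂, z', h4, h5, h6⟩ := meet_cross hx hy' hxy'.2
    obtain ⟨l', z₂, h7, h8, h9⟩ := meet_cross hx' hy hx'y.2
    obtain ⟨l'₂, z'₂, h10, h11, h12⟩ := meet_cross hx' hy' hx'y'.2
    have e1 : l₂ = l := Sum.inl_injective (h4.symm.trans h1)
    have e2 : l'₂ = l' := Sum.inl_injective (h10.symm.trans h7)
    have e3 : z₂ = z := Sum.inl_injective (Sum.inr_injective (h8.symm.trans h2))
    have e4 : z'₂ = z' := Sum.inl_injective (Sum.inr_injective (h11.symm.trans h5))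
    subst e1 e2 e3 e4
    have hll : l₂ ≠ l'₂ := by
      intro h
      apply hne
      apply e.injective
      rw [h1, h7, h]
    have hz : z₂ = z'₂ := by
      have hm : (l₂.1 - l'₂.1) * (z₂.1 - z'₂.1) = 0 := by
        linear_combination h9 - h12 + h6 - h3
      rcases mul_eq_zero.1 hm with h | h
      · exfalso
        apply hll
        have hm' : l₂.1 = l'₂.1 := sub_eq_zero.1 h
        refine Prod.ext hm' ?_
        have : l₂.2 - l'₂.2 = 0 := by
          linear_combination h9 - h3 - z₂.1 * h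
        exact sub_eq_zero.1 this
      · have hu : z₂.1 = z'₂.1 := sub_eq_zero.1 h
        refine Prod.ext hu ?_
        rw [h3, h6, hu]
    apply e.injective
    rw [h8, h11, hz]
  · exact hG'.1
  · intro x y hxy
    have := hG'.2 x y
    rw [SimpleGraph.edist_eq_one_iff_adj.2 hxy] at this
    simpa using this

/-- A family all of whose members contain one of two given points is 2-fat. -/
theorem fat_of_two {ι : Type} (A : ι → Set (EuclideanSpace ℝ (Fin 3))) (p q : EuclideanSpace ℝ (Fin 3)) (h : ∀ i, p ∈ A i ∨ q ∈ A i) :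
    IsFat 2 A := by
  classical
  intro a l hl
  refine ⟨{p, q}, Finset.card_le_two, fun i _ _ => ?_⟩
  rcases h i with h | h
  · exact ⟨p, h, by simp⟩
  · exact ⟨q, h, by simp⟩

/-- The choice of the prime. -/
theorem exists_prime_between (n : ℕ) (hn : 8 ≤ n) :
    ∃ p : ℕ, p.Prime ∧ 2 * (p * p) ≤ n ∧ n < 8 * (p * p) := by
  set s := Nat.sqrt (n / 2) with hs
  have hs1 : s * s ≤ n / 2 := Nat.sqrt_le (n / 2)
  have hs2 : n / 2 < (s + 1) * (s + 1) := Nat.lt_succ_sqrt (n / 2)
  have hs3 : 2 ≤ s := by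
    rw [hs, Nat.le_sqrt]
    omega
  obtain ⟨p, hp, h1, h2⟩ := Nat.exists_prime_lt_and_le_two_mul (s / 2) (by omega)
  refine ⟨p, hp, ?_, ?_⟩
  · have : p ≤ s := by omega
    have := Nat.mul_le_mul this this
    omega
  · have h3 : s + 1 ≤ 2 * p := by omega
    have := Nat.mul_le_mul h3 h3
    have h4 : 2 * p * (2 * p) = 4 * (p * p) := by ring
    rw [h4] at this
    omega

/-- **Main theorem.** For every `n ≥ 8` there is a 2-fat family of `n` convex polytopes in `ℝ³`,
each containing a unit ball and contained in the ball of radius 4 about the origin, such that every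
2-spanner of its intersection graph has at least `n^{3/2} / 46` edges. -/
theorem result (n : ℕ) (hn : 8 ≤ n) :
    ∃ A : Fin n → Set (EuclideanSpace ℝ (Fin 3)),
      (∀ i, (∃ V : Finset (EuclideanSpace ℝ (Fin 3)), A i = convexHull ℝ (V : Set (EuclideanSpace ℝ (Fin 3)))) ∧
        (∃ x, Metric.closedBall x 1 ⊆ A i) ∧ A i ⊆ Metric.closedBall 0 4) ∧
      IsFat 2 A ∧
      ∀ G' : SimpleGraph (Fin n), IsSpanner 2 (intersectionGraph A) G' →
        (n : ℝ) ^ (3 / 2 : ℝ) / 46 ≤ (G'.edgeSet.ncard : ℝ) := by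
  obtain ⟨p, hp, h1, h2⟩ := exists_prime_between n hn
  have : Fact p.Prime := ⟨hp⟩
  have hcard : Fintype.card (Lab (ZMod p) (n - 2 * (p * p))) = n := by
    simp only [Fintype.card_sum, Fintype.card_prod, ZMod.card, Fintype.card_fin]
    omega
  let e : Fin n ≃ Lab (ZMod p) (n - 2 * (p * p)) :=
    (Fintype.equivFinOfCardEq hcard).symm
  refine ⟨fun i => fam (e i), fun i => ⟨⟨gens (ht (e i)) (pts (e i)), rfl⟩, ?_, ?_⟩, ?_, ?_⟩
  · exact ⟨_, ball_subset _ _⟩
  · exact subset_ball (abs_ht _) _ (pts_mem _)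
  · apply fat_of_two _ (vert 2 (true, true, true)) (vert (-2) (true, true, true))
    intro i
    have key : ∀ a : Lab (ZMod p) (n - 2 * (p * p)), vert 2 (true, true, true) ∈ fam a ∨
        vert (-2) (true, true, true) ∈ fam a := by
      rintro (l | z | j)
      · exact Or.inl (vert_mem _ _ _)
      · exact Or.inr (vert_mem _ _ _)
      · exact Or.inl (vert_mem _ _ _)
    exact key (e i)
  · intro G' hG'
    have hb := family_bound e G' hG'
    rw [ZMod.card] at hb
    have hb' : (p : ℝ) ^ 3 ≤ 2 * (G'.edgeSet.ncard : ℝ) := by exact_mod_cast hb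
    have hn' : (n : ℝ) ≤ 8 * (p : ℝ) ^ 2 := by
      have : n ≤ 8 * (p * p) := h2.le
      have : (n : ℝ) ≤ 8 * ((p : ℝ) * p) := by exact_mod_cast this
      nlinarith
    have hpow : (n : ℝ) ^ (3 / 2 : ℝ) ≤ 23 * (p : ℝ) ^ 3 := by
      have hn0 : (0 : ℝ) ≤ n := Nat.cast_nonneg n
      have e1 : (n : ℝ) ^ (3 / 2 : ℝ) ≤ (8 * (p : ℝ) ^ 2) ^ (3 / 2 : ℝ) :=
        Real.rpow_le_rpow hn0 hn' (by norm_num)
      have e2 : ((8 * (p : ℝ) ^ 2) ^ (3 / 2 : ℝ)) ^ 2 = (8 * (p : ℝ) ^ 2) ^ 3 := by
        rw [← Real.rpow_natCast, ← Real.rpow_mul (by positivity), ← Real.rpow_natCast]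
        norm_num
      have e3 : 0 ≤ (8 * (p : ℝ) ^ 2) ^ (3 / 2 : ℝ) := by positivity
      have e4 : (8 * (p : ℝ) ^ 2) ^ (3 / 2 : ℝ) ≤ 23 * (p : ℝ) ^ 3 := by
        apply le_of_sq_le_sq _ (by positivity)
        rw [e2]
        have : (0 : ℝ) ≤ (p : ℝ) ^ 6 := by positivity
        nlinarith
      exact e1.trans e4
    rw [div_le_iff₀ (by norm_num)]
    nlinarith

end Pool.Agent.Results.MP_47a88a_co.ConvexTwoSpannerLowerBound
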